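import Mathlib
import Pool.Agent.Lib.helper28.BeuA

open MeasureTheory Set Filter Topology Complex

namespace Pool.Agent.Results.MP_c984ee_an.Eigen

/-- The closed square with centre `c` and half-side vectors `u`, `i u`. -/
def square (c u : ℂ) : Set ℂ := {z | |((z - c) / u).re| ≤ 1 ∧ |((z - c) / u).im| ≤ 1}

/-- The Muckenhoupt class. -/
def IsAp (p : ℝ) (w : ℂ → ℝ) : Prop :=
  LocallyIntegrable w volume ∧ (∀ᵐ z, 0 < w z) ∧ ∃ C : ℝ, ∀ c u : ℂ, u ≠ 0 →
    IntegrableOn (fun z => w z ^ (-1 / (p - 1))) (square c u) ∧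
      (⨍ z in square c u, w z) * (⨍ z in square c u, w z ^ (-1 / (p - 1))) ^ (p - 1) ≤ C

/-- The `p`-th power of the weighted norm. -/
noncomputable def wn (p : ℝ) (w : ℂ → ℝ) (f : ℂ → ℂ) : ENNReal :=
  ∫⁻ z, ENNReal.ofReal (‖f z‖ ^ p * w z)

/-- The principal value defining the Beurling transform of `f` at `z` exists and equals `v`. -/
def IsT (f : ℂ → ℂ) (z v : ℂ) : Prop :=
  (∀ ε : ℝ, 0 < ε → IntegrableOn (fun ζ => f ζ / (z - ζ) ^ 2) {ζ | ε < ‖z - ζ‖}) ∧
    Tendsto (fun ε : ℝ => -(1 / (Real.pi : ℂ)) * ∫ ζ in {ζ | ε < ‖z - ζ‖}, f ζ / (z - ζ) ^ 2)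
      (𝓝[>] 0) (𝓝 v)

/-- Wirtinger derivative in `z`. -/
noncomputable def dz (φ : ℂ → ℂ) (z : ℂ) : ℂ := (fderiv ℝ φ z 1 - I * fderiv ℝ φ z I) / 2

/-- Wirtinger derivative in the conjugate of `z`. -/
noncomputable def dbar (φ : ℂ → ℂ) (z : ℂ) : ℂ := (fderiv ℝ φ z 1 + I * fderiv ℝ φ z I) / 2

lemma isAp {p : ℝ} (hp : 1 < p) : IsAp p H28Beu.w := by
  refine ⟨H28Beu.w_cont.locallyIntegrable, Eventually.of_forall H28Beu.w_pos,
    9 + 49 * H28Beu.c0, fun c u hu => ?_⟩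
  have hr : 0 < ‖u‖ := norm_pos_iff.2 hu
  have hQ : MeasurableSet (square c u) :=
    ((isClosed_le (by fun_prop) continuous_const).inter
      (isClosed_le (by fun_prop) continuous_const) :
        IsClosed ({z : ℂ | |((z - c) / u).re| ≤ 1} ∩ {z : ℂ | |((z - c) / u).im| ≤ 1})).measurableSet
  have h1 : Metric.ball c ‖u‖ ⊆ square c u := fun z hz => by
    rw [Metric.mem_ball, dist_eq_norm] at hz
    have : ‖(z - c) / u‖ ≤ 1 := by rw [norm_div, div_le_one hr]; exact hz.le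
    exact ⟨(abs_re_le_norm _).trans this, (abs_im_le_norm _).trans this⟩
  have h2 : square c u ⊆ Metric.closedBall c (2 * ‖u‖) := fun z hz => by
    rw [Metric.mem_closedBall, dist_eq_norm, ← div_le_iff₀ hr, ← norm_div]
    linarith [norm_le_abs_re_add_abs_im ((z - c) / u), hz.1, hz.2]
  have hp1 : 0 < p - 1 := by linarith
  have hc : Continuous fun z => H28Beu.w z ^ (-1 / (p - 1)) :=
    H28Beu.w_cont.rpow_const fun z => Or.inl (H28Beu.w_pos z).ne'
  have hi : IntegrableOn (fun z => H28Beu.w z ^ (-1 / (p - 1))) (square c u) :=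
    (hc.continuousOn.integrableOn_compact (isCompact_closedBall c _)).mono_set h2
  refine ⟨hi, le_trans ?_ (H28Beu.a1 hQ hr h1 h2)⟩
  have hfin : volume (square c u) ≠ ⊤ := ((measure_mono h2).trans_lt measure_closedBall_lt_top).ne
  have hm0 : 0 < volume.real (square c u) := ENNReal.toReal_pos
    ((Metric.measure_ball_pos _ _ hr).trans_le (measure_mono h1)).ne' hfin
  set R := 1 + ‖c‖ + 2 * ‖u‖ with hR
  have hR0 : 0 < R := by positivity
  have h3 : ∀ z ∈ square c u, H28Beu.w z ^ (-1 / (p - 1)) ≤ (R ^ (3 / 2 : ℝ)) ^ (p - 1)⁻¹ := by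
    intro z hz
    have a1 := h2 hz
    rw [Metric.mem_closedBall, dist_eq_norm] at a1
    have a2 : ‖z‖ ≤ ‖c‖ + ‖z - c‖ := by
      calc ‖z‖ = ‖c + (z - c)‖ := by rw [add_sub_cancel]
        _ ≤ _ := norm_add_le _ _
    rw [H28Beu.w, ← Real.rpow_mul (by positivity), ← Real.rpow_mul hR0.le]
    have e : -(3 / 2 : ℝ) * (-1 / (p - 1)) = 3 / 2 * (p - 1)⁻¹ := by ring
    rw [e]
    exact Real.rpow_le_rpow (by positivity) (by linarith) (by positivity)
  have h4 : ⨍ z in square c u, H28Beu.w z ^ (-1 / (p - 1)) ≤ (R ^ (3 / 2 : ℝ)) ^ (p - 1)⁻¹ := by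
    rw [setAverage_eq, smul_eq_mul, inv_mul_le_iff₀ hm0]
    have := setIntegral_mono_on hi (integrableOn_const hfin) hQ h3
    rwa [setIntegral_const, smul_eq_mul] at this
  have hav : ∀ F : ℂ → ℝ, (∀ z, 0 ≤ F z) → 0 ≤ ⨍ z in square c u, F z := fun F hF => by
    rw [setAverage_eq, smul_eq_mul]
    exact mul_nonneg (by positivity) (integral_nonneg hF)
  have h5 := Real.rpow_le_rpow (hav _ fun z => Real.rpow_nonneg (H28Beu.w_pos z).le _)
    h4 hp1.le
  rw [Real.rpow_inv_rpow (by positivity) hp1.ne'] at h5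
  exact mul_le_mul_of_nonneg_left h5 (hav _ fun z => (H28Beu.w_pos z).le)

lemma isT {g : ℝ → ℝ} (hg : Continuous g) (hi : Integrable g) {M : ℝ} (hM : ∀ t, |g t| ≤ M)
    (z : ℂ) : IsT (fun ζ => (g ζ.im : ℂ)) z (-(g z.im : ℂ)) := by
  have hm : ∀ ε : ℝ, MeasurableSet {ζ : ℂ | ε < ‖z - ζ‖} := fun ε =>
    (isOpen_lt continuous_const (by fun_prop)).measurableSet
  have e : ∀ ε : ℝ, {ζ : ℂ | ε < ‖z - ζ‖}.indicator (fun ζ => (g ζ.im : ℂ) / (z - ζ) ^ 2) =
      fun ζ => (g (z.im - (z - ζ).im) : ℂ) * H28Beu.k ε (z - ζ) := fun ε => by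
    ext ζ
    by_cases h : ζ ∈ {ζ : ℂ | ε < ‖z - ζ‖}
    · rw [indicator_of_mem h, H28Beu.k, indicator_of_mem (show z - ζ ∈ {η : ℂ | ε < ‖η‖} from h)]
      simp [div_eq_mul_inv]
    · rw [indicator_of_notMem h, H28Beu.k,
        indicator_of_notMem (show z - ζ ∉ {η : ℂ | ε < ‖η‖} from h), mul_zero]
  constructor
  · intro ε hε
    rw [← integrable_indicator_iff (hm ε), e]
    exact (H28Beu.pv_int hg hi hε z.im).comp_sub_left z
  · have h1 := ((Complex.continuous_ofReal.tendsto _).comp (H28Beu.pv_lim hg hM z.im)).const_mul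
      (-(1 / (Real.pi : ℂ)))
    have h2 : -(1 / (Real.pi : ℂ)) * ((g z.im * Real.pi : ℝ) : ℂ) = -(g z.im : ℂ) := by
      have : (Real.pi : ℂ) ≠ 0 := by exact_mod_cast Real.pi_ne_zero
      push_cast; field_simp
    rw [h2] at h1
    refine h1.congr' ?_
    filter_upwards [self_mem_nhdsWithin] with ε hε
    rw [← integral_indicator (hm ε), e,
      integral_sub_left_eq_self (fun η => (g (z.im - η.im) : ℂ) * H28Beu.k ε η) volume z,
      H28Beu.pv_val hg hi hε]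
    rfl

lemma wn_bound {p K : ℝ} (hp : 0 < p) (hK : 0 ≤ K) {e : ℂ → ℂ} (h1 : ∀ z, ‖e z‖ ≤ K)
    (h2 : ∀ z : ℂ, z.im ∉ Icc (-2:ℝ) 2 → e z = 0) (z : ℂ) :
    ENNReal.ofReal (‖e z‖ ^ p * H28Beu.w z) ≤
      ‖K ^ p * ((Icc (-2:ℝ) 2).indicator (fun _ => (1:ℝ)) z.im * H28Beu.w z)‖ₑ := by
  by_cases hz : z.im ∈ Icc (-2:ℝ) 2
  · rw [indicator_of_mem hz, one_mul, ← ofReal_norm, Real.norm_of_nonneg
      (mul_nonneg (Real.rpow_nonneg hK _) (H28Beu.w_pos z).le)]
    exact ENNReal.ofReal_le_ofReal (mul_le_mul_of_nonneg_right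
      (Real.rpow_le_rpow (norm_nonneg _) (h1 z) hp.le) (H28Beu.w_pos z).le)
  · simp [h2 z hz, Real.zero_rpow hp.ne']

lemma wn_lim {p K : ℝ} (hp : 0 < p) (hK : 0 ≤ K) {e : ℕ → ℂ → ℂ} (hc : ∀ n, Continuous (e n))
    (h1 : ∀ n z, ‖e n z‖ ≤ K) (h2 : ∀ n (z : ℂ), z.im ∉ Icc (-2:ℝ) 2 → e n z = 0)
    (h3 : ∀ z, Tendsto (fun n => e n z) atTop (𝓝 0)) :
    Tendsto (fun n => wn p H28Beu.w (e n)) atTop (𝓝 0) := by
  have := tendsto_lintegral_of_dominated_convergence (μ := (volume : Measure ℂ))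
    (F := fun n z => ENNReal.ofReal (‖e n z‖ ^ p * H28Beu.w z)) (f := fun _ => 0) _
    (fun n => (((hc n).norm.rpow_const fun _ => Or.inr hp.le).mul
      H28Beu.w_cont).measurable.ennreal_ofReal)
    (fun n => Eventually.of_forall (wn_bound hp hK (h1 n) (h2 n)))
    (H28Beu.strip_int.const_mul (K ^ p)).2.ne (Eventually.of_forall fun z => ?_)
  · simpa [wn] using this
  · have h4 := ENNReal.tendsto_ofReal (((h3 z).norm.rpow_const (Or.inr hp.le)).mul_const
      (H28Beu.w z))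
    simpa [Real.zero_rpow hp.ne'] using h4

noncomputable def ph (G : ℝ → ℝ) (c : ℝ) (z : ℂ) : ℂ := -2 * I * ((G z.im * G (c * z.re) : ℝ) : ℂ)

lemma ph_fderiv {G : ℝ → ℝ} (hG : Differentiable ℝ G) (c : ℝ) (z v : ℂ) :
    fderiv ℝ (ph G c) z v = -2 * I *
      ((G z.im * (deriv G (c * z.re) * (c * v.re)) + G (c * z.re) * (deriv G z.im * v.im) : ℝ) : ℂ) := by
  have h1 : HasFDerivAt (fun z : ℂ => G z.im) _ z :=
    (hG z.im).hasDerivAt.comp_hasFDerivAt z (imCLM.hasFDerivAt (x := z))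
  have h2 : HasFDerivAt (fun z : ℂ => G (c * z.re)) _ z :=
    (hG (c * z.re)).hasDerivAt.comp_hasFDerivAt z ((reCLM.hasFDerivAt (x := z)).const_mul c)
  have h3 := (ofRealCLM.hasFDerivAt.comp z (h1.mul h2)).const_mul (-2 * I)
  have h4 : HasFDerivAt (ph G c) _ z := h3
  rw [h4.fderiv]
  simp
  ring

theorem result (p : ℝ) (hp : 1 < p) :
    ∃ w : ℂ → ℝ, IsAp p w ∧ ∃ f : ℂ → ℂ, Continuous f ∧ ¬ f =ᵐ[volume] 0 ∧ wn p w f < ⊤ ∧
      (∀ z, IsT f z (-f z)) ∧
      ∃ φ : ℕ → ℂ → ℂ,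
        (∀ n, ContDiff ℝ ((⊤ : ℕ∞) : WithTop ℕ∞) (φ n) ∧ HasCompactSupport (φ n)) ∧
        Tendsto (fun n => wn p w (dbar (φ n) - f)) atTop (𝓝 0) ∧
        Tendsto (fun n => wn p w (dz (φ n) + f)) atTop (𝓝 0) := by
  let G : ContDiffBump (0:ℝ) := ⟨1, 2, one_pos, one_lt_two⟩
  have hGs : ContDiff ℝ ((⊤ : ℕ∞) : WithTop ℕ∞) G := G.contDiff
  have hGd : Differentiable ℝ G := hGs.differentiable (by simp)
  have hg : Continuous (deriv G) := hGs.continuous_deriv (by simp)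
  have hgs : HasCompactSupport (deriv G) := G.hasCompactSupport.deriv
  obtain ⟨M, hM⟩ := hg.bounded_above_of_compact_support hgs
  have hM0 : 0 ≤ M := (norm_nonneg _).trans (hM 0)
  have hG0 : ∀ t : ℝ, 2 ≤ |t| → G t = 0 := fun t ht =>
    G.zero_of_le_dist (by simpa using ht)
  have hG1 : G 0 = 1 := G.one_of_mem_closedBall (Metric.mem_closedBall_self zero_le_one)
  have hGz : ∀ t : ℝ, t ∉ Icc (-2:ℝ) 2 → G t = 0 ∧ deriv G t = 0 := fun t ht => by
    have h1 : t ∉ tsupport G := by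
      rw [G.tsupport_eq, Real.closedBall_eq_Icc]; simpa using ht
    exact ⟨image_eq_zero_of_notMem_tsupport h1,
      Function.notMem_support.1 fun h => h1 (support_deriv_subset h)⟩
  have hp0 : 0 < p := by linarith
  have hcn : Tendsto (fun n : ℕ => 1 / ((n:ℝ) + 1)) atTop (𝓝 0) :=
    tendsto_one_div_add_atTop_nhds_zero_nat
  have herr : ∀ s : ℝ, |s| = 1 → Tendsto (fun n : ℕ => wn p H28Beu.w (fun z =>
      ((s * (deriv G z.im * (G (1 / ((n:ℝ) + 1) * z.re) - 1)) : ℝ) : ℂ) - I *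
        ((1 / ((n:ℝ) + 1) * (G z.im * deriv G (1 / ((n:ℝ) + 1) * z.re)) : ℝ) : ℂ))) atTop (𝓝 0) := by
    intro s hs
    refine wn_lim (K := M + M) hp0 (by linarith) (fun n => ?_) (fun n z => ?_) (fun n z hz => ?_)
      (fun z => ?_)
    · have := hGd.continuous
      fun_prop
    · refine (norm_sub_le _ _).trans (add_le_add ?_ ?_)
      · rw [Complex.norm_real, norm_mul, norm_mul, Real.norm_eq_abs s, hs, one_mul]
        refine (mul_le_of_le_one_right (norm_nonneg _) ?_).trans (hM _)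
        rw [Real.norm_eq_abs, abs_le]
        constructor <;> linarith [G.nonneg (x := 1 / ((n:ℝ) + 1) * z.re),
          G.le_one (x := 1 / ((n:ℝ) + 1) * z.re)]
      · rw [norm_mul, norm_I, one_mul, Complex.norm_real, norm_mul, norm_mul]
        have a1 : ‖1 / ((n:ℝ) + 1)‖ ≤ 1 := by
          rw [Real.norm_of_nonneg (by positivity), div_le_one (by positivity)]
          linarith [Nat.cast_nonneg (α := ℝ) n]
        have a2 : ‖G z.im‖ ≤ 1 := by rw [Real.norm_of_nonneg G.nonneg]; exact G.le_one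
        exact (mul_le_of_le_one_left (by positivity) a1).trans
          ((mul_le_of_le_one_left (norm_nonneg _) a2).trans (hM _))
    · simp [(hGz _ hz).1, (hGz _ hz).2]
    · have := hGd.continuous
      have hc : Continuous fun c : ℝ => ((s * (deriv G z.im * (G (c * z.re) - 1)) : ℝ) : ℂ) - I *
        ((c * (G z.im * deriv G (c * z.re)) : ℝ) : ℂ) := by fun_prop
      have := (hc.tendsto 0).comp hcn
      simpa [hG1, Function.comp_def] using this
  refine ⟨H28Beu.w, isAp hp, fun z => ((deriv G z.im : ℝ) : ℂ), by fun_prop, ?_, ?_,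
    isT hg (hg.integrable_of_hasCompactSupport hgs) hM,
    fun n => ph G (1 / ((n:ℝ) + 1)), fun n => ⟨?_, ?_⟩, ?_, ?_⟩
  · intro h
    have h1 := (Continuous.ae_eq_iff_eq volume (by fun_prop) continuous_zero).1 h
    have h2 : ∀ t, deriv G t = 0 := fun t => by
      simpa using congrFun h1 (t * I)
    have h3 := is_const_of_deriv_eq_zero hGd h2 0 2
    rw [hG1, hG0 2 (by norm_num)] at h3
    exact one_ne_zero h3
  · exact (lintegral_mono (wn_bound hp0 hM0 (fun z => by simpa using hM z.im)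
      fun z hz => by simp [(hGz _ hz).2])).trans_lt (H28Beu.strip_int.const_mul (M ^ p)).2
  · exact contDiff_const.mul (ofRealCLM.contDiff.comp ((hGs.comp imCLM.contDiff).mul
      (hGs.comp (contDiff_const.mul reCLM.contDiff))))
  · refine HasCompactSupport.intro (isCompact_closedBall 0 (2 + 2 * ((n:ℝ) + 1))) fun z hz => ?_
    rw [mem_closedBall_zero_iff, not_le] at hz
    have h1 := norm_le_abs_re_add_abs_im z
    by_cases h : 2 ≤ |z.im|
    · simp [ph, hG0 _ h]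
    · have : 2 ≤ |1 / ((n:ℝ) + 1) * z.re| := by
        rw [abs_mul, abs_of_pos (by positivity), one_div, ← div_eq_inv_mul,
          le_div_iff₀ (by positivity)]
        linarith
      simp only [ph, hG0 _ this]; simp
  · convert herr 1 (by simp) using 3 with n
    ext z
    simp only [Pi.sub_apply, dbar, ph_fderiv hGd]
    simp only [one_re, one_im, I_re, I_im]
    push_cast
    linear_combination (-((G (1 / ((n:ℝ) + 1) * z.re) : ℝ) : ℂ) * ((deriv G z.im : ℝ) : ℂ)) * I_sq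
  · convert herr (-1) (by simp) using 3 with n
    ext z
    simp only [Pi.add_apply, dz, ph_fderiv hGd]
    simp only [one_re, one_im, I_re, I_im]
    push_cast
    linear_combination (((G (1 / ((n:ℝ) + 1) * z.re) : ℝ) : ℂ) * ((deriv G z.im : ℝ) : ℂ)) * I_sq

end Pool.Agent.Results.MP_c984ee_an.Eigen
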